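import Pool.Agent.N179.SD.Defs
import Pool.Agent.N179.SP.Fin
import Pool.Agent.TH132.A.Num

/-!
# Homological and numerical equivalence on products with independent factors: the theorem
-/

set_option autoImplicit false
set_option linter.unusedSectionVars false

open CategoryTheory AlgebraicGeometry

universe u

namespace Pool.Agent.N179.SD

open Module Pool.Agent.TH125.Gal Pool.Agent.N179.GR Pool.Agent.N179.GR.S

open Pool.Agent.H914 Pool.Agent.H914.VarClass Pool.Agent.H914.VarClass.Obj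
  Pool.Agent.H914.WeilCohomology Pool.Agent.W552 Pool.Agent.H281R3.HT Pool.Agent.TH132.A

variable {k : Type u} [Field k] {𝒱 : VarClass k} {ops : CycleOps 𝒱}
  {W : WeilCohomology.{u, 0} ops} {Γ : Type} [Group Γ]

theorem one_ne_of_point {P : GVar W Γ} (h : HasPoint P) : (1 : W.H P.X) ≠ 0 := by
  obtain ⟨a, -, ha⟩ := h
  intro h0
  apply ha
  have h1 : a = 0 := by rw [← mul_one a, h0, mul_zero]
  rw [h1, map_zero]

/-- a class whose slices are combinations of algebraic classes -/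
theorem mem_span_of_slices {P Y : 𝒱.Obj} {z : W.H (P.prod Y)}
    (h : ∀ ψ, ctr2 ψ z ∈ Submodule.span W.K {x | AS W P x}) :
    z ∈ Submodule.span W.K {w | ∃ x y, AS W P x ∧ w = ext W x y} := by
  obtain ⟨N, m, φ, hm, -, hex⟩ := exists_exp Y {x | AS W P x}
  rw [hex z h]
  exact Submodule.sum_mem _ fun l _ => Submodule.subset_span ⟨m l, _, hm l, rfl⟩

/-- **The cycles split.** -/
theorem split {P Y : GVar W Γ} {υ : Acts P Y} {χ : Chr W.K Γ} (hP : Factor χ P)
    (hd : CyclesDefined χ (prodVar P Y υ))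
    (hsl : ∀ z, (full (W.H (P.X.prod Y.X)) (algR υ)).Eig z → ∀ ψ,
      ctr2 ψ z ∈ Submodule.span W.K {y | (full (W.H P.X) (algR P.act)).Eig y})
    (z : W.H (P.X.prod Y.X)) (hz : AS W (P.X.prod Y.X) z) : z ∈ tens W P.X Y.X := by
  refine mem_tens hP.num hz ?_
  refine AS.ind (p := fun z => z ∈ Submodule.span W.K {w | ∃ x y, AS W P.X x ∧ w = ext W x y})
    ?_ (fun x y hx hy => Submodule.add_mem _ hx hy) hz
  intro j z hz
  refine mem_span_of_slices fun ψ => ?_
  obtain ⟨Δ, hΔ, hg⟩ := hd j z hz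
  have h1 := hsl z ⟨Δ, hΔ, fun g hg' => ⟨_, hg g hg'⟩⟩ ψ
  refine (Submodule.span_le.2 fun y hy => ?_) h1
  have h2 := hP.twisted y hy
  refine (Submodule.span_le.2 ?_) h2
  rintro c ⟨i, hi, hc⟩
  have h3 := hP.tate i c hi hc
  refine (Submodule.span_mono ?_) h3
  intro x hx
  exact AS.of hx

/-- the cycles on the second factor -/
theorem defined_snd {P Y : GVar W Γ} {υ : Acts P Y} {χ : Chr W.K Γ} (hυ : ProdAct P Y υ)
    (h1 : (1 : W.H P.X) ≠ 0) (hd : CyclesDefined χ (prodVar P Y υ)) : CyclesDefined χ Y := by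
  intro j c hc
  obtain ⟨Δ, hΔ, hg⟩ := hd j (W.map (snd P.X Y.X) c) (alg_map _ hc)
  refine ⟨Δ, hΔ, fun g hg' => ?_⟩
  have h2 := hg g hg'
  have h3 : W.map (snd P.X Y.X) (Y.act g c - (χ g : W.K) ^ j • c) = 0 := by
    rw [map_sub, map_smul, sub_eq_zero, ← hυ.2]
    exact h2
  have h4 := one_ext_inj (X := P.X) (U := Y.X) h1
    (a := Y.act g c - (χ g : W.K) ^ j • c) (by rw [ext, map_one, one_mul, h3])
  exact sub_eq_zero.1 h4

theorem tower_num [IsAlgClosed W.K] {ι : Type} {V : ι → GRep W.K Γ} {Z : GVar W Γ}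
    {L : List (ι × GVar W Γ)} {Y : GVar W Γ} {χ : Chr W.K Γ} {m : ℕ} {E : Set ι}
    {U : Fin m → GRep W.K Γ} (hU : ∀ i ∉ E, ∀ a, Spl (fl (V i)) {fl (U a)})
    (hV : ∀ i ∉ E, ∀ j ∉ E, j ≠ i → Spl (fl (V i)) {fl (V j)})
    (hZ : GeneratedBy U Z) (hY : S.Tower V Z L Y) :
    (∀ x ∈ L, x.1 ∉ E ∧ Factor χ x.2) → CyclesDefined χ Y →
    (HomEqNum W Y.X ↔ HomEqNum W Z.X) := by
  induction hY with
  | base => exact fun _ _ => Iff.rfl
  | @step L Y i P υ hT hi hP hυ ih =>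
    intro hL hd
    have hL' : ∀ x ∈ L, x.1 ∉ E ∧ Factor χ x.2 := fun x hx => hL x (List.mem_cons_of_mem _ hx)
    have hPL := hL (i, P) List.mem_cons_self
    have h1 := one_ne_of_point hPL.2.point
    rw [← ih hL' (defined_snd hυ h1 hd)]
    refine homEqNum_prod_iff (split hPL.2 hd fun z hz ψ => ?_) hPL.2.num h1
    exact SP.slices hZ hT (i := i) (hU i hPL.1)
      (fun x hx => hV i hPL.1 x.1 (hL' x hx).1 (hi x hx)) hP hυ hz ψ

/-- **The theorem.** -/
theorem final (hK : Nonempty (W.K ≃+* ℂ)) (χ : Chr W.K Γ) {ι : Type} {V : ι → GRep W.K Γ}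
    (hV : Family V) : ∃ E : GRep W.K Γ → Set ι, NumSplitting χ V E := by
  obtain ⟨e⟩ := hK
  have halg : IsAlgClosed W.K := IsAlgClosed.of_ringEquiv ℂ W.K e.symm
  refine ⟨Exc V, exceptional e hV, ?_, ?_, fun m U Z hZ L Y hY hL hd => ?_⟩
  · intro j i hi
    by_contra h
    exact hi (hV.pair h)
  · intro Z hZ
    refine (exceptional e hV (coh Z)).card_form
      ⟨(LinearMap.mul W.K (W.H Z.X)).compr₂ (W.tr Z.X), fun x hx => W.nondeg x fun y => hx y,
        χ ^ Z.X.dim, fun g (x y : W.H Z.X) => ?_⟩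
    have h1 := hZ g (x * y)
    rw [map_mul] at h1
    rw [MonoidHom.pow_apply, Units.val_pow_eq_pow_val]
    exact h1
  · refine tower_num (U := U) (E := ⋃ a, Exc V (U a)) (fun i hi a => ?_)
      (fun i _ j _ hij => hV.pair hij.symm) hZ hY hL hd
    by_contra h
    exact hi (Set.mem_iUnion.2 ⟨a, h⟩)

end Pool.Agent.N179.SD
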