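import Pool.Agent.N179.GR.Defs

/-!
# Homological and numerical equivalence on products with independent factors: definitions
-/

set_option autoImplicit false

universe u

namespace Pool.Agent.N179.SD

open Pool.Agent.TH125.Gal Pool.Agent.N179.GR.S
open Pool.Agent.H914 Pool.Agent.H914.VarClass Pool.Agent.H914.VarClass.Obj
  Pool.Agent.H914.WeilCohomology

section Alg

variable {K : Type} [Field K] {A : Type} [Ring A] [Algebra K A] {Γ : Type} [Group Γ]

/-- The characters of `Γ` with values in `K`. -/
abbrev Chr (K : Type) [Field K] (Γ : Type) [Group Γ] : Type := Γ →* Kˣ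

/-- The elements `c` of `S j` satisfy `g c = χ(g)^j c` for all `g` in a subgroup of finite index. -/
def PotAct (χ : Chr K Γ) (S : ℕ → Set A) (ρ : Γ →* (A ≃ₐ[K] A)) : Prop :=
  ∀ j, ∀ c ∈ S j, ∃ Δ : Subgroup Γ, Δ.FiniteIndex ∧ ∀ g ∈ Δ, ρ g c = (χ g : K) ^ j • c

end Alg

variable {k : Type u} [Field k] {𝒱 : VarClass k} {ops : CycleOps 𝒱}
  {W : WeilCohomology.{u, 0} ops} {Γ : Type} [Group Γ]

/-- The classes `c` of the cycles of codimension `j` on `Y` satisfy `g c = χ(g)^j c` for all `g` in a
subgroup of finite index. -/
def CyclesDefined (χ : Chr W.K Γ) (Y : GVar W Γ) : Prop := PotAct χ (algClasses W Y.X) Y.act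

/-- The factor `P`: its semi-invariant classes are combinations of potential Tate classes, the Tate
conjecture is true for `P`, homological and numerical equivalence are the same on `P`, and
there is a zero-cycle of degree different from `0`. -/
structure Factor (χ : Chr W.K Γ) (P : GVar W Γ) : Prop where
  twisted : Twisted χ P
  tate : TateConjecture χ P
  num : HomEqNum W P.X
  point : HasPoint P

/-- On the towers over `Z` without indices in `E`, homological and numerical equivalence are the same
if and only if they are on `Z`. -/
def NumOutside (χ : Chr W.K Γ) {ι : Type} (V : ι → GRep W.K Γ) (Z : GVar W Γ) (E : Set ι) : Prop :=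
  ∀ (L : List (ι × GVar W Γ)) (Y : GVar W Γ), Tower V Z L Y →
    (∀ x ∈ L, x.1 ∉ E ∧ Factor χ x.2) → CyclesDefined χ Y →
      (HomEqNum W Y.X ↔ HomEqNum W Z.X)

/-- `E U` is the set of the exceptional indices with respect to the representation `U`.

* It has the properties `Exceptional`; in particular it is finite.
* No `j ≠ i` is exceptional with respect to `V i`.
* For every variety `Z`, the number of the exceptional indices with respect to the cohomology of `Z`
  is at most one half of `b - b'`, where `b` is the sum of the Betti numbers and `b'` is the dimension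
  of the span of the semi-invariant classes.
* If `Z` is generated by finitely many representations `U a` (for instance by its own cohomology), then
  the conjecture `D` for the towers over `Z` without indices in the `E (U a)` is equivalent to the
  conjecture `D` for `Z`. -/
structure NumSplitting (χ : Chr W.K Γ) {ι : Type} (V : ι → GRep W.K Γ)
    (E : GRep W.K Γ → Set ι) : Prop where
  exceptional : ∀ U, Exceptional V U (E U)
  self : ∀ i, E (V i) ⊆ {i}
  variety : ∀ Z : GVar W Γ, TraceInv χ Z →
    2 * (E (coh Z)).ncard + (semiSpan (coh Z)).dim ≤ dim (coh Z)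
  num : ∀ (m : ℕ) (U : Fin m → GRep W.K Γ) (Z : GVar W Γ), GeneratedBy U Z →
    NumOutside χ V Z (⋃ a, E (U a))

end Pool.Agent.N179.SD
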